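import Pool.Agent.F5H.StmtsE
import Pool.Agent.Helper3_F5H.C_CHA

/-!
# F5H, row C_FRM: the dictionary frame - chart
-/

set_option autoImplicit false

open MeasureTheory Complex ComplexConjugate

namespace Pool.Agent.F5H.BC.H17

open Pool.Agent.BTL Pool.Agent.F5S Pool.Agent.F5H Pool.Agent.F5H.BC Pool.Agent.F5.H58

theorem pos_of_qf {A : ℝ × ℝ × ℝ} (h : ∀ x : ℝ × ℝ, x ≠ 0 → 0 < qf A x) : 0 < A.1 ∧ 0 < disc A := by
  have h1 : 0 < A.1 := by
    have h2 := h (1, 0) (by simp)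
    simpa [qf] using h2
  refine ⟨h1, ?_⟩
  have h3 := h (-A.2.1, A.1) (by
    intro h4
    have h5 : A.1 = 0 := congrArg Prod.snd h4
    exact h1.ne' h5)
  have h6 : qf A (-A.2.1, A.1) = A.1 * disc A := by
    unfold qf disc
    ring
  rw [h6] at h3
  exact (mul_pos_iff_of_pos_left h1).mp h3

theorem z_ne {mu z : ℂ} (hmu : ‖mu‖ < 1) (hz : z ≠ 0) : z + mu * conj z ≠ 0 := by
  intro h
  have h1 : z = -(mu * conj z) := eq_neg_of_add_eq_zero_left h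
  have h2 : ‖z‖ = ‖mu‖ * ‖z‖ := by
    conv_lhs => rw [h1]
    rw [norm_neg, norm_mul, RCLike.norm_conj]
  have h3 : 0 < ‖z‖ := norm_pos_iff.mpr hz
  nlinarith

theorem Ach_pos {A : ℝ × ℝ × ℝ} {M : ℝ} (hM : 1 ≤ M) (hA : A ∈ KM M) {lam : ℝ} (hl : 0 < lam)
    {mu : ℂ} (hmu : ‖mu‖ < 1) : 0 < (Ach A lam mu).1 ∧ 0 < disc (Ach A lam mu) := by
  apply pos_of_qf
  intro x hx
  rw [H3.form]
  refine mul_pos hl (normSq_pos.mpr (z_ne hmu ?_))
  intro h
  have h1 := (H3.size hM hA x).1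
  rw [h, norm_zero, mul_zero] at h1
  exact hx (norm_le_zero_iff.mp h1)

theorem one_add_ne {mu : ℂ} (hmu : ‖mu‖ < 1) : (1 + mu : ℂ) ≠ 0 := by
  intro h1
  have h2 : mu = -1 := by linear_combination h1
  rw [h2, norm_neg, norm_one] at hmu
  exact lt_irrefl _ hmu

theorem om_exp {mu : ℂ} (hmu : ‖mu‖ < 1) : om mu * cexp ((arg (1 + mu) : ℂ) * I) = 1 := by
  have h0 := one_add_ne hmu
  have h1 : (‖1 + mu‖ : ℂ) ≠ 0 := by
    exact_mod_cast (norm_pos_iff.mpr h0).ne'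
  have h2 := Complex.norm_mul_exp_arg_mul_I (1 + mu)
  have h3 : cexp ((arg (1 + mu) : ℂ) * I) = (1 + mu) / (‖1 + mu‖ : ℂ) := by
    rw [eq_div_iff h1, mul_comm]
    exact h2
  have h4 : conj (1 + mu) * (1 + mu) = (‖1 + mu‖ : ℂ) ^ 2 := by
    rw [mul_comm, Complex.mul_conj, Complex.normSq_eq_norm_sq]
    push_cast
    rfl
  rw [h3]
  unfold om
  rw [div_mul_div_comm, h4, ← sq, div_self (pow_ne_zero 2 h1)]

theorem norm_om {mu : ℂ} (hmu : ‖mu‖ < 1) : ‖om mu‖ = 1 := by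
  have h0 : 0 < ‖1 + mu‖ := norm_pos_iff.mpr (one_add_ne hmu)
  unfold om
  rw [norm_div, RCLike.norm_conj, norm_real, Real.norm_eq_abs, abs_of_pos h0, div_self h0.ne']

theorem frm : FRMStmt := by
  intro _ T M A s h k w hT hM hA hH hw hmu hq
  have ha := H3.a_pos hM hA
  have hD := H3.d_pos hM hA
  obtain ⟨ha', hD'⟩ := Ach_pos hM hA hw hmu
  have hn : ∀ l, 0 < ‖hG A h l‖ := fun l => norm_pos_iff.mpr (hH l)
  refine ⟨⟨norm_om hmu, hw, hT, hn 0, fun l => div_pos (hn l) (hn 0), ?_, ?_, ?_, rfl, ?_, hq, ?_,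
    ?_⟩, ?_⟩
  · intro l
    have h1 := H3.frame ha hD hw hmu (cp h l)
    have h2 : (‖hG A h l‖ : ℂ) ≠ 0 := by exact_mod_cast (hn l).ne'
    have h3 : bc A h l * ‖hG A h 0‖ = ‖hG A h l‖ := div_mul_cancel₀ _ (hn 0).ne'
    change gA (Ach A w.1 (mw w)) (cp h l) = om (mw w) *
      ((√w.1 * (bc A h l * ‖hG A h 0‖) : ℝ) : ℂ) *
        Eh (hG A h l / (‖hG A h l‖ : ℂ)) (mw w)
    rw [h1, h3]
    change om (mw w) * (√w.1 : ℂ) * (hG A h l + mw w * conj (hG A h l)) = _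
    unfold Eh
    rw [map_div₀, conj_ofReal]
    push_cast
    field_simp
  · intro l
    change ‖hG A h 2‖ / ‖hG A h l‖ * (‖hG A h l‖ / ‖hG A h 0‖) = ‖hG A h 2‖ / ‖hG A h 0‖
    have h1 := (hn l).ne'
    have h2 := (hn 0).ne'
    field_simp
  · intro l
    change sg s l ^ 2 = 1
    unfold sg
    fin_cases l
    · by_cases h1 : s.1 <;> simp [h1]
    · by_cases h1 : s.2 <;> simp [h1]
    · simp
  · change ‖hG A h 0‖ ^ 2 / (4 * T ^ 2) * w.1 * (4 * T ^ 2) = ‖hG A h 0‖ ^ 2 * w.1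
    have h1 := hT.ne'
    field_simp
  · change normSq (mw w) < 1
    rw [Complex.normSq_eq_norm_sq]
    have := norm_nonneg (mw w)
    nlinarith
  · change cexp (((ph3 (mw w) (w.2 2) - arg (1 + mw w) : ℝ) : ℂ) * I) =
      om (mw w) * cexp (((ph3 (mw w) (w.2 2) : ℝ) : ℂ) * I)
    have h1 := om_exp hmu
    have h2 : cexp (((ph3 (mw w) (w.2 2) - arg (1 + mw w) : ℝ) : ℂ) * I) *
        cexp ((arg (1 + mw w) : ℂ) * I) = cexp (((ph3 (mw w) (w.2 2) : ℝ) : ℂ) * I) := by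
      rw [← Complex.exp_add]
      congr 1
      push_cast
      ring
    rw [← h2]
    linear_combination (-cexp (((ph3 (mw w) (w.2 2) - arg (1 + mw w) : ℝ) : ℂ) * I)) * h1
  · intro X
    unfold F5.H58.sp
    refine Finset.sum_congr rfl ?_
    intro l _
    obtain ⟨x, hx⟩ := H3.gA_surj ha hD (X l)
    change (conj (kA (Ach A w.1 (mw w)) (cp k l)) *
      (om (mw w) * (√w.1 : ℂ) * (X l + mw w * conj (X l)))).re =
        (conj (kA A (cp k l)) * X l).re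
    rw [← hx, ← H3.frame ha hD hw hmu x, ← H3.duality ha' hD', ← H3.duality ha hD]

end Pool.Agent.F5H.BC.H17
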