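import Pool.Agent.Helper36_F5H.StmtsK2

/-!
# CVG (squad F5H, row C_KC2): covering radius of the scaled lattice
-/

set_option autoImplicit false

open MeasureTheory Complex ComplexConjugate

namespace Pool.Agent.F5H.K2.H17

open Pool.Agent.Helper68_F5 Pool.Agent.F5H.W36 Pool.Agent.F5H.BC Pool.Agent.BTL Pool.Agent.F5S
  Pool.Agent.F5H

/-- **CVG** -/
theorem cvg : CVGStmt := by
  intro Q A hQ hA z
  obtain ⟨h1, hd, _⟩ := km_facts (by linarith) hA
  have hQ0 : (0 : ℝ) < Q := by linarith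
  have hQc : (Q : ℂ) ≠ 0 := by
    intro h
    have := congrArg Complex.re h
    simp at this
    linarith
  set y : ℝ × ℝ := giA A (z / (Q : ℂ)) with hy
  have hgy : gA A y = z / (Q : ℂ) := gA_giA h1 hd _
  set x : ℤ × ℤ := (round y.1, round y.2) with hx
  have hr1 : |((round y.1 : ℤ) : ℝ) - y.1| ≤ 1 / 2 := by
    rw [abs_sub_comm]; exact abs_sub_round y.1
  have hr2 : |((round y.2 : ℤ) : ℝ) - y.2| ≤ 1 / 2 := by
    rw [abs_sub_comm]; exact abs_sub_round y.2
  refine ⟨x, ?_⟩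
  set d : ℝ × ℝ := rc x - y with hdd
  have hdx : rc x = y + d := by rw [hdd]; abel
  have hnr : nr d ≤ 1 := by
    have e1 : d.1 = ((round y.1 : ℤ) : ℝ) - y.1 := rfl
    have e2 : d.2 = ((round y.2 : ℤ) : ℝ) - y.2 := rfl
    rw [nr, e1, e2]
    have a1 := abs_le.1 hr1
    have a2 := abs_le.1 hr2
    nlinarith [a1.1, a1.2, a2.1, a2.2]
  have hg : gQ Q A x - z = (Q : ℂ) * gA A d := by
    rw [gQ_apply, hdx, gA_add, hgy]
    field_simp
    ring
  have hn : ‖gA A d‖ ^ 2 ≤ Q := by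
    rw [norm_gA_sq h1 hd]
    exact le_trans (hA d).2 (by nlinarith)
  have hn1 : ‖gA A d‖ ≤ Q := by
    by_contra hcon
    have hcon := not_le.1 hcon
    nlinarith [norm_nonneg (gA A d)]
  rw [hg, norm_mul, Complex.norm_real, Real.norm_eq_abs, abs_of_pos hQ0]
  calc Q * ‖gA A d‖ ≤ Q * Q := mul_le_mul_of_nonneg_left hn1 hQ0.le
    _ = Q ^ 2 := by ring
    _ ≤ Q ^ 8 := pow_le_pow_right₀ (by linarith) (by norm_num)

end Pool.Agent.F5H.K2.H17
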