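import Pool.Agent.Helper36_F5H.StmtsK2
import Pool.Agent.Helper68_F5.Kc2g

/-!
# MKP (squad F5H, row C_KC2): measurability
-/

set_option autoImplicit false

open MeasureTheory Complex ComplexConjugate

namespace Pool.Agent.F5H.K2.H17

open Pool.Agent.Helper68_F5 Pool.Agent.F5H.W36 Pool.Agent.F5H.BC Pool.Agent.BTL Pool.Agent.F5S
  Pool.Agent.F5H

theorem meas_kph (T : ℝ) (H : Fin 3 → ℂ) (ep : Fin 3 → ℝ) (K : Fin 3 → ℂ) :
    Measurable fun th : ℝ => kph T H ep th K := by
  unfold kph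
  refine Finset.measurable_fun_sum _ fun l _ => ?_
  simp only [sp_eq]
  exact ((meas_sp measurable_const (meas_wG l)).mul measurable_const).sub
    (((meas_sp measurable_const (measurable_const.mul (meas_wG l))).mul
      ((meas_tG 2).div (meas_nG l))).mul measurable_const)

/-- **MKP** -/
theorem mkp : MKPStmt := by
  intro T Q A V k0 X s h k
  have h1 := meas_Cd T Q A V k0 s h k
  have h2 : MeasurableSet {th : ℝ | |kph T (hG A (r3 h)) (sg s) th (kG A (r3 k))| ≤ X} :=
    measurableSet_le (continuous_abs.measurable.comp (meas_kph T _ _ _)) measurable_const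
  have e : {th : ℝ | th ∈ Set.Ioc (-Real.pi) Real.pi ∧ Cd T Q A V k0 s h k th ∧
      |kph T (hG A (r3 h)) (sg s) th (kG A (r3 k))| ≤ X} =
      {th : ℝ | th ∈ Set.Ioc (-Real.pi) Real.pi ∧ Cd T Q A V k0 s h k th} ∩
        {th : ℝ | |kph T (hG A (r3 h)) (sg s) th (kG A (r3 k))| ≤ X} := by
    ext th
    constructor
    · rintro ⟨a, b, c⟩
      exact ⟨⟨a, b⟩, c⟩
    · rintro ⟨⟨a, b⟩, c⟩
      exact ⟨a, b, c⟩
  rw [e]
  exact h1.inter h2

end Pool.Agent.F5H.K2.H17
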