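import Pool.Agent.Helper36_F5H.StmtsK2

/-!
# TON (squad F5H, row C_KC2): Tonelli with three families
-/

set_option autoImplicit false

open MeasureTheory Complex ComplexConjugate

namespace Pool.Agent.F5H.K2.H17

open Pool.Agent.Helper68_F5 Pool.Agent.F5H.W36 Pool.Agent.F5H.BC Pool.Agent.BTL Pool.Agent.F5S
  Pool.Agent.F5H

theorem lint_fam {τ : Type} (𝓥 : Finset τ) (Ht : τ → Set ℝ) (C : ENNReal) :
    ∫⁻ θ, C * ∑ t ∈ 𝓥, (toMeasurable volume (Ht t)).indicator
      (fun _ => (1 : ENNReal)) θ = C * ∑ t ∈ 𝓥, volume (Ht t) := by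
  rw [lintegral_const_mul _ (Finset.measurable_fun_sum _ fun t _ =>
    measurable_const.indicator (measurableSet_toMeasurable _ _)),
    lintegral_finsetSum _ fun t _ =>
    measurable_const.indicator (measurableSet_toMeasurable _ _)]
  congr 1
  refine Finset.sum_congr rfl fun t _ => ?_
  rw [lintegral_indicator_const (measurableSet_toMeasurable _ _), one_mul,
    measure_toMeasurable]

theorem meas_fam {τ : Type} (𝓥 : Finset τ) (Ht : τ → Set ℝ) (C : ENNReal) :
    Measurable fun θ => C * ∑ t ∈ 𝓥, (toMeasurable volume (Ht t)).indicator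
      (fun _ => (1 : ENNReal)) θ :=
  (Finset.measurable_fun_sum _ fun t _ =>
    measurable_const.indicator (measurableSet_toMeasurable _ _)).const_mul C

/-- **TON** -/
theorem ton : TONStmt := by
  intro ι τ _ S hS 𝓥₁ 𝓥₂ H₁ H₂ W C₁ C₂ C₃ h
  have h1 : ∑' k, volume (S k) =
      ∫⁻ θ, ∑' k, (S k).indicator (fun _ => (1 : ENNReal)) θ := by
    rw [lintegral_tsum fun k => (measurable_const.indicator (hS k)).aemeasurable]
    refine tsum_congr fun k => ?_
    rw [lintegral_indicator_const (hS k), one_mul]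
  have hind : ∀ (B : Set ℝ) (θ : ℝ), B.indicator (fun _ => (1 : ENNReal)) θ ≤
      (toMeasurable volume B).indicator (fun _ => (1 : ENNReal)) θ := fun B θ =>
    Set.indicator_le_indicator_of_subset (subset_toMeasurable _ _) (fun _ => zero_le_one) θ
  have hm3 : Measurable fun θ => C₃ * (toMeasurable volume W).indicator
      (fun _ => (1 : ENNReal)) θ :=
    (measurable_const.indicator (measurableSet_toMeasurable _ _)).const_mul C₃
  have h2 : ∫⁻ θ, ∑' k, (S k).indicator (fun _ => (1 : ENNReal)) θ ≤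
      ∫⁻ θ, (C₁ * ∑ t ∈ 𝓥₁, (toMeasurable volume (H₁ t)).indicator
          (fun _ => (1 : ENNReal)) θ +
        C₂ * ∑ t ∈ 𝓥₂, (toMeasurable volume (H₂ t)).indicator (fun _ => (1 : ENNReal)) θ +
        C₃ * (toMeasurable volume W).indicator (fun _ => (1 : ENNReal)) θ) := by
    refine lintegral_mono fun θ => le_trans (h θ) ?_
    refine add_le_add (add_le_add ?_ ?_) ?_
    · exact mul_le_mul_right (Finset.sum_le_sum fun t _ => hind _ θ) C₁
    · exact mul_le_mul_right (Finset.sum_le_sum fun t _ => hind _ θ) C₂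
    · exact mul_le_mul_right (hind W θ) C₃
  have h3 : ∫⁻ θ, (C₁ * ∑ t ∈ 𝓥₁, (toMeasurable volume (H₁ t)).indicator
          (fun _ => (1 : ENNReal)) θ +
        C₂ * ∑ t ∈ 𝓥₂, (toMeasurable volume (H₂ t)).indicator (fun _ => (1 : ENNReal)) θ +
        C₃ * (toMeasurable volume W).indicator (fun _ => (1 : ENNReal)) θ) =
      C₁ * ∑ t ∈ 𝓥₁, volume (H₁ t) + C₂ * ∑ t ∈ 𝓥₂, volume (H₂ t) + C₃ * volume W := by
    rw [lintegral_add_right _ hm3, lintegral_add_right _ (meas_fam 𝓥₂ H₂ C₂), lint_fam, lint_fam,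
      lintegral_const_mul _ (measurable_const.indicator (measurableSet_toMeasurable _ _)),
      lintegral_indicator_const (measurableSet_toMeasurable _ _), one_mul,
      measure_toMeasurable]
  rw [h1]
  exact le_trans h2 (le_of_eq h3)

end Pool.Agent.F5H.K2.H17
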